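import Pool.Agent.Work.MP_b29d7f_ns.Interface3

/-! Simple facts on the reflections `rfx`. -/

set_option autoImplicit false

open Finset Filter Topology MeasureTheory

namespace Pool.NS

namespace REFL_

variable {k : ℕ} {u : E k} {a : ℝ}

/-- signed distance to the mirror -/
noncomputable def h (u : E k) (a : ℝ) (z : E k) : ℝ := inner ℝ u z - a

lemma rfx_eq (z : E k) : rfx u a z = z - (2 * h u a z) • u := rfl

lemma h_rfx (hu : ‖u‖ = 1) (z : E k) : h u a (rfx u a z) = - h u a z := by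
  unfold h rfx
  rw [inner_sub_right, inner_smul_right, real_inner_self_eq_norm_sq, hu]; ring

lemma rfx_rfx (hu : ‖u‖ = 1) (z : E k) : rfx u a (rfx u a z) = z := by
  rw [rfx_eq, h_rfx hu, rfx_eq]
  module

lemma norm_sq (hu : ‖u‖ = 1) (z y : E k) :
    ‖rfx u a z - y‖ ^ 2 = ‖z - y‖ ^ 2 + 4 * (h u a z * h u a y) := by
  have e : rfx u a z - y = (z - y) - (2 * h u a z) • u := by rw [rfx_eq]; abel
  rw [e, norm_sub_sq_real, norm_smul, hu, inner_smul_right, real_inner_comm, inner_sub_right,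
    Real.norm_eq_abs, mul_one, sq_abs]
  unfold h
  ring

lemma norm_rfx_sub (hu : ‖u‖ = 1) (z y : E k) : ‖rfx u a z - rfx u a y‖ = ‖z - y‖ := by
  have h1 : ‖rfx u a z - rfx u a y‖ ^ 2 = ‖z - y‖ ^ 2 := by
    rw [norm_sq hu, h_rfx hu, norm_sub_rev z, norm_sq hu, norm_sub_rev y z]
    ring
  exact (sq_eq_sq₀ (norm_nonneg _) (norm_nonneg _)).mp h1

lemma norm_rfx_sub' (hu : ‖u‖ = 1) (z y : E k) : ‖rfx u a z - y‖ = ‖z - rfx u a y‖ := by
  rw [← norm_rfx_sub hu z (rfx u a y), rfx_rfx hu]

lemma continuous_h : Continuous (h u a) := by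
  unfold h
  fun_prop

lemma continuous_rfx : Continuous (rfx u a) := by
  unfold rfx
  fun_prop

lemma measurable_rfx : Measurable (rfx u a) := continuous_rfx.measurable

lemma norm_rfx_le (hu : ‖u‖ = 1) (z : E k) : ‖rfx u a z‖ ≤ ‖z‖ + ‖rfx u a 0‖ := by
  have h1 := norm_rfx_sub (a := a) hu z 0
  rw [sub_zero] at h1
  calc ‖rfx u a z‖ = ‖(rfx u a z - rfx u a 0) + rfx u a 0‖ := by rw [sub_add_cancel]
    _ ≤ ‖rfx u a z - rfx u a 0‖ + ‖rfx u a 0‖ := norm_add_le _ _
    _ = ‖z‖ + ‖rfx u a 0‖ := by rw [h1]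

/-- reflections preserve the volume -/
lemma mp_rfx (hu : ‖u‖ = 1) : MeasurePreserving (rfx u a) volume volume := by
  set ρ : E k ≃ₗᵢ[ℝ] E k := ((ℝ ∙ u)ᗮ).reflection with hρ
  have e : rfx u a = (fun w => w + (2 * a) • u) ∘ ρ := by
    funext z
    rw [Function.comp_apply, hρ, Submodule.reflection_orthogonal_apply,
      Submodule.reflection_singleton_apply]
    unfold rfx
    rw [hu]
    simp only [RCLike.ofReal_real_eq_id, id_eq, one_pow, div_one]
    module
  rw [e]
  exact (measurePreserving_add_right volume ((2 * a) • u)).comp ρ.measurePreserving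

/-- the reflection as a measurable equivalence -/
noncomputable def me (hu : ‖u‖ = 1) : E k ≃ᵐ E k where
  toFun := rfx u a
  invFun := rfx u a
  left_inv := rfx_rfx hu
  right_inv := rfx_rfx hu
  measurable_toFun := measurable_rfx
  measurable_invFun := measurable_rfx

lemma me_apply (hu : ‖u‖ = 1) (z : E k) : me (a := a) hu z = rfx u a z := rfl

lemma integral_rfx (hu : ‖u‖ = 1) (g : E k → ℝ) : ∫ z, g (rfx u a z) = ∫ z, g z :=
  (mp_rfx (a := a) hu).integral_comp (me hu).measurableEmbedding g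

/-- the mirror has measure zero -/
lemma mirror_null (hu : ‖u‖ = 1) : volume {z : E k | h u a z = 0} = 0 := by
  have hs : {z : E k | h u a z = 0} = AffineSubspace.mk' (a • u) ((ℝ ∙ u)ᗮ) := by
    ext z
    rw [Set.mem_ofPred_eq, SetLike.mem_coe, AffineSubspace.mem_mk',
      Submodule.mem_orthogonal_singleton_iff_inner_right, vsub_eq_sub, inner_sub_right,
      inner_smul_right, real_inner_self_eq_norm_sq, hu]
    unfold h
    simp
  rw [hs]
  apply Measure.addHaar_affineSubspace
  intro htop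
  have h2 : (a + 1) • u ∈ AffineSubspace.mk' (a • u) ((ℝ ∙ u)ᗮ) := by
    rw [htop]; exact AffineSubspace.mem_top ℝ _ _
  rw [AffineSubspace.mem_mk', Submodule.mem_orthogonal_singleton_iff_inner_right, vsub_eq_sub,
    inner_sub_right, inner_smul_right, inner_smul_right, real_inner_self_eq_norm_sq, hu] at h2
  linarith

end REFL_

end Pool.NS
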