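import Pool.Agent.Work.MP_b29d7f_ns_helper74.LimAbs

/-!
# Block LIM1: the limit density of the coordinates at an infinite place
-/

set_option autoImplicit false

open Finset Filter Topology MeasureTheory

namespace Pool.NS

namespace LIM1_

open LIMA_ Data

variable {R : Type} [CommRing R] {P : Data R}

/-- the averages -/
noncomputable def Tv (S : Sq P) (v : P.Ω) (l : ℕ) (g : E (P.e v) → ℝ) : ℝ :=
  (S.n l)⁻¹ * ∑ b ∈ S.A l, g (S.X l b v)

lemma av (S : Sq P) (v : P.Ω) : Av (Tv S v) where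
  add l g g' := by
    unfold Tv
    rw [Finset.sum_add_distrib, mul_add]
  smul l c g := by
    unfold Tv
    rw [← Finset.mul_sum]
    ring
  mono l g g' h := by
    unfold Tv
    exact mul_le_mul_of_nonneg_left (Finset.sum_le_sum fun b _ => h _)
      (inv_nonneg.mpr (S.n_pos l).le)
  one l := by
    unfold Tv
    rw [Finset.sum_const, nsmul_eq_mul, mul_one]
    exact inv_mul_cancel₀ (S.n_pos l).ne'

/-- radii of the box -/
noncomputable def rad (S : Sq P) (v : P.Ω) (C q : ℝ) (l : ℕ) (v' : P.Ω) : ℝ :=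
  Real.exp (if v' = v then Real.log q else C) * S.s l v'

lemma rad_pos (S : Sq P) (v : P.Ω) (C q : ℝ) (l : ℕ) (v' : P.Ω) : 0 < rad S v C q l v' :=
  mul_pos (Real.exp_pos _) (S.s_pos l v')

/-- levels of the box -/
noncomputable def lvl (S : Sq P) (C : ℝ) (l : ℕ) (t : P.T) : ℤ := S.j l t + ⌈C / P.lq t⌉

/-- the constant in the degree of the box -/
noncomputable def KK (P : Data R) (C : ℝ) : ℝ :=
  C * ∑ v', (P.e v' : ℝ) + ∑ t, P.lq t * ((⌈C / P.lq t⌉ : ℤ) : ℝ)

lemma deg_le (S : Sq P) (v : P.Ω) {C : ℝ} (hC : 0 ≤ C) (q : ℝ) (l : ℕ) :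
    P.deg (rad S v C q l) (lvl S C l) ≤ Real.log (S.n l) + P.e v * Real.log q + KK P C := by
  have hd : P.deg (S.s l) (S.j l) = Real.log (S.n l) := (S.frame l).deg_eq
  have h1 : ∑ v', (P.e v' : ℝ) * Real.log (rad S v C q l v')
      = ∑ v', (P.e v' : ℝ) * Real.log (S.s l v')
        + ∑ v', (P.e v' : ℝ) * (if v' = v then Real.log q else C) := by
    rw [← Finset.sum_add_distrib]
    refine Finset.sum_congr rfl fun v' _ => ?_
    unfold rad
    rw [Real.log_mul (Real.exp_pos _).ne' (S.s_pos l v').ne', Real.log_exp]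
    ring
  have h2 : ∑ v', (P.e v' : ℝ) * (if v' = v then Real.log q else C)
      ≤ P.e v * Real.log q + C * ∑ v', (P.e v' : ℝ) := by
    have h3 : ∀ v', (P.e v' : ℝ) * (if v' = v then Real.log q else C)
        ≤ (if v' = v then (P.e v : ℝ) * Real.log q else 0) + C * (P.e v' : ℝ) := by
      intro v'
      have h4 : (0 : ℝ) ≤ P.e v' := Nat.cast_nonneg _
      by_cases h : v' = v
      · rw [if_pos h, if_pos h, h]
        have h5 : (0 : ℝ) ≤ P.e v := Nat.cast_nonneg _
        nlinarith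
      · rw [if_neg h, if_neg h]
        linarith [mul_comm C (P.e v' : ℝ)]
    refine (Finset.sum_le_sum fun v' _ => h3 v').trans (le_of_eq ?_)
    rw [Finset.sum_add_distrib, Finset.sum_ite_eq' univ v, if_pos (mem_univ v), Finset.mul_sum]
  have h3 : ∑ t, P.lq t * (lvl S C l t : ℝ)
      = ∑ t, P.lq t * (S.j l t : ℝ) + ∑ t, P.lq t * ((⌈C / P.lq t⌉ : ℤ) : ℝ) := by
    rw [← Finset.sum_add_distrib]
    refine Finset.sum_congr rfl fun t _ => ?_
    unfold lvl
    push_cast
    ring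
  unfold Data.deg at hd ⊢
  unfold KK
  linarith

lemma exp_deg_le (S : Sq P) (v : P.Ω) {C : ℝ} (hC : 0 ≤ C) {q : ℝ} (hq : 0 < q) (l : ℕ) :
    Real.exp (P.deg (rad S v C q l) (lvl S C l))
      ≤ S.n l * q ^ (P.e v) * Real.exp (KK P C) := by
  refine (Real.exp_le_exp.mpr (deg_le S v hC q l)).trans (le_of_eq ?_)
  rw [Real.exp_add, Real.exp_add, Real.exp_log (S.n_pos l), Real.exp_nat_mul, Real.exp_log hq]

open scoped Classical in
/-- elements in the box -/
lemma box_card (hCNT : Stmt_CNT) (S : Sq P) : ∃ C₁ : ℝ, 0 ≤ C₁ ∧ ∀ (v : P.Ω) (C : ℝ), 0 ≤ C →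
    ∀ q : ℝ, 0 < q → ∀ (l : ℕ) (x : E (P.e v)),
    (((S.A l).filter fun b => S.ex l b < C ∧ ‖S.X l b v - x‖ ≤ q).card : ℝ)
      ≤ C₁ * (1 + S.n l * q ^ (P.e v) * Real.exp (KK P C)) := by
  obtain ⟨C₁, hC₁, h⟩ := hCNT R P S.C₁ S.geo
  refine ⟨C₁, hC₁, fun v C hC q hq l x => ?_⟩
  have h1 := h (rad S v C q l) (lvl S C l) (rad_pos S v C q l)
    (Function.update (fun _ => 0) v (S.s l v • x)) 0
    ((S.A l).filter fun b => S.ex l b < C ∧ ‖S.X l b v - x‖ ≤ q) ?_
  · refine h1.trans ?_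
    apply mul_le_mul_of_nonneg_left _ hC₁
    linarith [exp_deg_le S v hC hq l]
  · intro b hb
    rw [Finset.mem_filter] at hb
    obtain ⟨hbA, hbC, hbq⟩ := hb
    constructor
    · intro v'
      by_cases hv : v' = v
      · subst hv
        rw [Function.update_self, S.norm_em_sub]
        unfold rad
        rw [if_pos rfl, Real.exp_log hq, mul_comm]
        exact mul_le_mul_of_nonneg_right hbq (S.s_pos l v').le
      · rw [Function.update_of_ne hv, sub_zero, S.norm_em l]
        unfold rad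
        rw [if_neg hv, mul_comm]
        apply mul_le_mul_of_nonneg_right _ (S.s_pos l v').le
        exact (S.norm_X_le l b v').trans (Real.exp_le_exp.mpr hbC.le)
    · intro t
      by_cases hb0 : b = 0
      · exact Or.inl hb0
      right
      rw [sub_zero]
      have h2 := S.lev_le_ex l hb0 t
      have h3 := S.good.lq_pos t
      have h4 : ((max (P.lev t b - S.j l t) 0 : ℤ) : ℝ) ≤ C / P.lq t := by
        rw [le_div_iff₀ h3]
        linarith [mul_comm (P.lq t) ((max (P.lev t b - S.j l t) 0 : ℤ) : ℝ)]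
      have h5 : ((max (P.lev t b - S.j l t) 0 : ℤ) : ℝ) ≤ ((⌈C / P.lq t⌉ : ℤ) : ℝ) :=
        h4.trans (Int.le_ceil _)
      have h6 : max (P.lev t b - S.j l t) 0 ≤ ⌈C / P.lq t⌉ := by exact_mod_cast h5
      have h7 := (le_max_left (P.lev t b - S.j l t) 0).trans h6
      unfold lvl
      linarith

end LIM1_

open LIM1_ LIMA_ Data in
theorem stmt_LIM1 (hCNT : Stmt_CNT) (hTAIL : Stmt_TAIL) : Stmt_LIM1 := by
  classical
  intro R _ P S v
  obtain ⟨C, hC1, _, hT⟩ := hTAIL R P S
  obtain ⟨C₁, hC₁, hbox⟩ := box_card hCNT S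
  have hC0 : 0 ≤ C := by linarith
  have key := main (av S v) ?_ (Real.exp C) (Real.exp_pos C).le ?_
  · obtain ⟨f, h1, h2, h3, h4, h5, h6⟩ := key
    exact ⟨f, h1, h2, h3, h4, h5, h6⟩
  · refine ⟨C₁ * Real.exp (KK P C), by positivity, fun x r hr hr1 ε hε => ?_⟩
    have e1 := hT (ε / 2) (by positivity)
    have e2 : ∀ᶠ l in atTop, 2 * C₁ / ε ≤ S.n l := S.card.eventually_ge_atTop _
    have e3 : ∀ᶠ l in atTop, Tv S v l (bmp x r) ≤ C₁ * Real.exp (KK P C) * (2 * r) ^ (P.e v) + ε := by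
      filter_upwards [e1, e2] with l q1 q2
      have hn := S.n_pos l
      have q3 : ∑ b ∈ S.A l, bmp x r (S.X l b v)
          ≤ ∑ b ∈ (S.A l).filter (fun b => C ≤ S.ex l b), S.ex l b
            + (((S.A l).filter fun b => S.ex l b < C ∧ ‖S.X l b v - x‖ ≤ 2 * r).card : ℝ) := by
        have q4 : (((S.A l).filter fun b => S.ex l b < C ∧ ‖S.X l b v - x‖ ≤ 2 * r).card : ℝ)
            = ∑ b ∈ S.A l, if S.ex l b < C ∧ ‖S.X l b v - x‖ ≤ 2 * r then (1 : ℝ) else 0 := by
          rw [← Finset.sum_filter, Finset.sum_const, nsmul_eq_mul, mul_one]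
        rw [q4, Finset.sum_filter, ← Finset.sum_add_distrib]
        refine Finset.sum_le_sum fun b _ => ?_
        by_cases p1 : C ≤ S.ex l b
        · rw [if_pos p1]
          have p2 := bmp_le x r (S.X l b v)
          have p3 : (0 : ℝ) ≤ if S.ex l b < C ∧ ‖S.X l b v - x‖ ≤ 2 * r then (1 : ℝ) else 0 := by
            split_ifs <;> norm_num
          linarith
        · rw [if_neg p1]
          by_cases p2 : ‖S.X l b v - x‖ ≤ 2 * r
          · rw [if_pos ⟨not_le.mp p1, p2⟩]
            linarith [bmp_le x r (S.X l b v)]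
          · rw [if_neg (fun h => p2 h.2), bmp_zero x hr (not_le.mp p2).le]
            norm_num
      have q4 := hbox v C hC0 (2 * r) (by positivity) l x
      have q5 : 2 * C₁ ≤ ε * S.n l := by
        rw [div_le_iff₀ hε] at q2
        linarith [mul_comm ε (S.n l)]
      unfold Tv
      rw [inv_mul_le_iff₀ hn]
      nlinarith
    exact (Nat.hyperfilter_le_atTop) e3
  · intro g hg0 hg1 hgR ε hε
    have e1 := hT ε hε
    have e3 : ∀ᶠ l in atTop, Tv S v l g ≤ ε := by
      filter_upwards [e1] with l q1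
      have hn := S.n_pos l
      have q3 : ∑ b ∈ S.A l, g (S.X l b v)
          ≤ ∑ b ∈ (S.A l).filter (fun b => C ≤ S.ex l b), S.ex l b := by
        rw [Finset.sum_filter]
        refine Finset.sum_le_sum fun b _ => ?_
        by_cases p1 : C ≤ S.ex l b
        · rw [if_pos p1]
          linarith [hg1 (S.X l b v)]
        · rw [if_neg p1, hgR]
          exact (S.norm_X_le l b v).trans (Real.exp_le_exp.mpr (not_le.mp p1).le)
      unfold Tv
      rw [inv_mul_le_iff₀ hn]
      linarith [mul_comm ε (S.n l)]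
    exact (Nat.hyperfilter_le_atTop) e3

end Pool.NS
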