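import Pool.Agent.Work.MP_b29d7f_ns_helper74.Refl
import Pool.Agent.Work.MP_b29d7f_ns_helper31.LogInt

/-!
# Block SC: minimality with respect to all swaps for one mirror
-/

set_option autoImplicit false

open Finset Filter Topology MeasureTheory

namespace Pool.NS

namespace SC_

open REFL_

variable {k : ℕ} {u : E k} {a : ℝ}

/-- logarithm of the quotient of the distances -/
noncomputable def Lg (u : E k) (a : ℝ) (z y : E k) : ℝ :=
  Real.log ‖rfx u a z - y‖ - Real.log ‖z - y‖

/-- odd part of `f` -/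
noncomputable def Df (u : E k) (a : ℝ) (f : E k → ℝ) (z : E k) : ℝ := f z - f (rfx u a z)

lemma Df_rfx (hu : ‖u‖ = 1) (f : E k → ℝ) (z : E k) : Df u a f (rfx u a z) = -Df u a f z := by
  unfold Df
  rw [rfx_rfx hu]
  ring

lemma Lg_pos (hu : ‖u‖ = 1) {z y : E k} (hzy : z ≠ y) (h1 : 0 < h u a z * h u a y) :
    0 < Lg u a z y := by
  have h2 := norm_sq (a := a) hu z y
  have h3 : 0 < ‖z - y‖ := norm_pos_iff.mpr (sub_ne_zero.mpr hzy)
  have h4 : ‖z - y‖ < ‖rfx u a z - y‖ := by
    apply lt_of_pow_lt_pow_left₀ 2 (norm_nonneg _)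
    linarith
  unfold Lg
  have := Real.log_lt_log h3 h4
  linarith

lemma Lg_neg (hu : ‖u‖ = 1) {z y : E k} (hzy : rfx u a z ≠ y) (h1 : h u a z * h u a y < 0) :
    Lg u a z y < 0 := by
  have h2 := norm_sq (a := a) hu z y
  have h3 : 0 < ‖rfx u a z - y‖ := norm_pos_iff.mpr (sub_ne_zero.mpr hzy)
  have h4 : ‖rfx u a z - y‖ < ‖z - y‖ := by
    apply lt_of_pow_lt_pow_left₀ 2 (norm_nonneg _)
    linarith
  unfold Lg
  have := Real.log_lt_log h3 h4
  linarith

lemma Lg_zero (hu : ‖u‖ = 1) {z y : E k} (h1 : h u a z * h u a y = 0) : Lg u a z y = 0 := by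
  have h2 := norm_sq (a := a) hu z y
  rw [h1, mul_zero, add_zero] at h2
  have h3 : ‖rfx u a z - y‖ = ‖z - y‖ := (sq_eq_sq₀ (norm_nonneg _) (norm_nonneg _)).mp h2
  unfold Lg
  rw [h3]
  ring

/-- the sign of `Lg * (Df * Df)` -/
lemma sign_le (hu : ‖u‖ = 1) (f : E k → ℝ) {z y : E k} (h1 : h u a z * Df u a f z < 0)
    (h2 : 0 ≤ h u a y * Df u a f y) : Lg u a z y * (Df u a f z * Df u a f y) ≤ 0 := by
  have hzy : z ≠ y := by rintro rfl; linarith
  have hzy' : rfx u a z ≠ y := by
    rintro rfl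
    rw [h_rfx hu, Df_rfx hu] at h2
    linarith
  have h3 : (h u a z * h u a y) * (Df u a f z * Df u a f y) ≤ 0 := by nlinarith
  rcases lt_trichotomy (h u a z * h u a y) 0 with h4 | h4 | h4
  · have h5 := Lg_neg hu hzy' h4
    have h6 : 0 ≤ Df u a f z * Df u a f y := by
      by_contra hcon
      push Not at hcon
      have := mul_pos_of_neg_of_neg h4 hcon
      linarith
    exact mul_nonpos_of_nonpos_of_nonneg h5.le h6
  · rw [Lg_zero hu h4, zero_mul]
  · have h5 := Lg_pos hu hzy h4
    have h6 : Df u a f z * Df u a f y ≤ 0 := by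
      by_contra hcon
      push Not at hcon
      have := mul_pos h4 hcon
      linarith
    exact mul_nonpos_of_nonneg_of_nonpos h5.le h6

lemma sign_ne (hu : ‖u‖ = 1) (f : E k → ℝ) {z y : E k} (h1 : h u a z * Df u a f z < 0)
    (h2 : 0 < h u a y * Df u a f y) : Lg u a z y * (Df u a f z * Df u a f y) ≠ 0 := by
  have hzy : z ≠ y := by rintro rfl; linarith
  have hzy' : rfx u a z ≠ y := by
    rintro rfl
    rw [h_rfx hu, Df_rfx hu] at h2
    linarith
  have n1 : h u a z ≠ 0 := by intro h0; rw [h0] at h1; simp at h1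
  have n2 : Df u a f z ≠ 0 := by intro h0; rw [h0] at h1; simp at h1
  have n3 : h u a y ≠ 0 := by intro h0; rw [h0] at h2; simp at h2
  have n4 : Df u a f y ≠ 0 := by intro h0; rw [h0] at h2; simp at h2
  refine mul_ne_zero ?_ (mul_ne_zero n2 n4)
  rcases lt_or_gt_of_ne (mul_ne_zero n1 n3) with h4 | h4
  · exact (Lg_neg hu hzy' h4).ne
  · exact (Lg_pos hu hzy h4).ne'

lemma measurable_Df {f : E k → ℝ} (hf : Measurable f) : Measurable (Df u a f) := by
  unfold Df
  exact hf.sub (hf.comp measurable_rfx)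

/-- the swapped region -/
def QQ (u : E k) (a : ℝ) (f : E k → ℝ) : Set (E k) := {z | h u a z * Df u a f z < 0}

lemma measurableSet_QQ {f : E k → ℝ} (hf : Measurable f) : MeasurableSet (QQ u a f) :=
  measurableSet_lt (continuous_h.measurable.mul (measurable_Df hf)) measurable_const

/-- the pairs of which exactly the first element is swapped -/
def SS (u : E k) (a : ℝ) (f : E k → ℝ) : Set (E k × E k) :=
  {p | p.1 ∈ QQ u a f ∧ p.2 ∉ QQ u a f}

lemma measurableSet_SS {f : E k → ℝ} (hf : Measurable f) : MeasurableSet (SS u a f) :=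
  (measurable_fst (measurableSet_QQ hf)).inter (measurable_snd (measurableSet_QQ hf).compl)

lemma rfx_mem_QQ (hu : ‖u‖ = 1) (f : E k → ℝ) (z : E k) :
    rfx u a z ∈ QQ u a f ↔ z ∈ QQ u a f := by
  unfold QQ
  rw [Set.mem_ofPred_eq, Set.mem_ofPred_eq, h_rfx hu, Df_rfx hu, neg_mul_neg]

/-- the integrand -/
noncomputable def KK (u : E k) (a : ℝ) (f : E k → ℝ) (p : E k × E k) : ℝ :=
  Lg u a p.1 p.2 * (f p.1 * f p.2)

/-- the integrand, restricted to `SS` -/
noncomputable def GG (u : E k) (a : ℝ) (f : E k → ℝ) (p : E k × E k) : ℝ :=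
  (SS u a f).indicator (KK u a f) p

lemma KK_int (hk : k = 1 ∨ k = 2) {f φ : E k → ℝ} (hf : Dens k f φ) (hu : ‖u‖ = 1) :
    Integrable (KK u a f) (volume.prod volume) := by
  have hfm := hf.meas
  have aux : ∀ σ : E k → E k, Measurable σ → (∀ R : ℝ, ∃ R' : ℝ, ∀ z, ‖z‖ ≤ R → ‖σ z‖ ≤ R') →
      Integrable (fun p : E k × E k => Real.log ‖σ p.1 - p.2‖ * (f p.1 * f p.2))
        (volume.prod volume) := by
    intro σ hσ hb
    have h1 := LOGI_.prod_log_integrable hk hf σ hσ hb
    refine h1.mono' ?_ ?_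
    · apply Measurable.aestronglyMeasurable
      fun_prop
    · filter_upwards with p
      rw [norm_mul, Real.norm_eq_abs, Real.norm_eq_abs,
        abs_of_nonneg (mul_nonneg (hf.nonneg _) (hf.nonneg _))]
  have h1 := aux (rfx u a) measurable_rfx (fun R => ⟨R + ‖rfx u a 0‖, fun z hz =>
    (norm_rfx_le hu z).trans (by linarith)⟩)
  have h2 := aux id measurable_id (fun R => ⟨R, fun z hz => hz⟩)
  have h3 := h1.sub h2
  refine h3.congr ?_
  filter_upwards with p
  unfold KK Lg
  simp only [Pi.sub_apply, id]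
  ring

lemma GG_int (hk : k = 1 ∨ k = 2) {f φ : E k → ℝ} (hf : Dens k f φ) (hu : ‖u‖ = 1) :
    Integrable (GG u a f) (volume.prod volume) :=
  (KK_int hk hf hu).indicator (measurableSet_SS hf.meas)

lemma GG_of_mem (f : E k → ℝ) (z y : E k) (h1 : z ∈ QQ u a f) (h2 : y ∉ QQ u a f) :
    GG u a f (z, y) = Lg u a z y * (f z * f y) :=
  Set.indicator_of_mem (show (z, y) ∈ SS u a f from ⟨h1, h2⟩) _

lemma GG_of_left (f : E k → ℝ) (z y : E k) (h1 : z ∉ QQ u a f) : GG u a f (z, y) = 0 :=
  Set.indicator_of_notMem (show (z, y) ∉ SS u a f from fun h2 => h1 h2.1) _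

lemma GG_of_right (f : E k → ℝ) (z y : E k) (h1 : y ∈ QQ u a f) : GG u a f (z, y) = 0 :=
  Set.indicator_of_notMem (show (z, y) ∉ SS u a f from fun h2 => h2.2 h1) _

open scoped Classical in
/-- the swap for the set `QQ` in the half space -/
lemma swp_eq (hu : ‖u‖ = 1) (f : E k → ℝ) (z : E k) :
    swp u a {z | a < inner ℝ u z ∧ f z < f (rfx u a z)} z
      = if z ∈ QQ u a f then rfx u a z else z := by
  have h1 : (z ∈ {z | a < inner ℝ u z ∧ f z < f (rfx u a z)} ∨
      rfx u a z ∈ {z | a < inner ℝ u z ∧ f z < f (rfx u a z)}) ↔ z ∈ QQ u a f := by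
    have e1 := h_rfx (a := a) hu z
    unfold h at e1
    unfold QQ h Df
    simp only [Set.mem_ofPred_eq]
    rw [rfx_rfx hu, mul_neg_iff]
    constructor
    · rintro (⟨q1, q2⟩ | ⟨q1, q2⟩)
      · left; constructor <;> linarith
      · right; constructor <;> linarith
    · rintro (⟨q1, q2⟩ | ⟨q1, q2⟩)
      · left; constructor <;> linarith
      · right; constructor <;> linarith
  unfold swp
  by_cases h2 : z ∈ QQ u a f
  · rw [if_pos (h1.mpr h2), if_pos h2]
  · rw [if_neg (fun h3 => h2 (h1.mp h3)), if_neg h2]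

/-- the integrand of `dI` -/
lemma dI_integrand (hu : ‖u‖ = 1) (f : E k → ℝ) (z z' : E k) :
    (Real.log ‖swp u a {z | a < inner ℝ u z ∧ f z < f (rfx u a z)} z
        - swp u a {z | a < inner ℝ u z ∧ f z < f (rfx u a z)} z'‖
      - Real.log ‖z - z'‖) * (f z * f z')
      = GG u a f (z, z') + GG u a f (z', z) := by
  rw [swp_eq hu, swp_eq hu]
  by_cases h1 : z ∈ QQ u a f
  · by_cases h2 : z' ∈ QQ u a f
    · rw [if_pos h1, if_pos h2, norm_rfx_sub hu, GG_of_right f z z' h2, GG_of_right f z' z h1]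
      ring
    · rw [if_pos h1, if_neg h2, GG_of_mem f z z' h1 h2, GG_of_left f z' z h2]
      unfold Lg
      ring
  · by_cases h2 : z' ∈ QQ u a f
    · rw [if_neg h1, if_pos h2, GG_of_mem f z' z h2 h1, GG_of_left f z z' h1]
      unfold Lg
      rw [norm_sub_rev z, norm_sub_rev z z']
      ring
    · rw [if_neg h1, if_neg h2, GG_of_left f z z' h1, GG_of_left f z' z h2]
      ring

lemma dI_eq (hk : k = 1 ∨ k = 2) {f φ : E k → ℝ} (hf : Dens k f φ) (hu : ‖u‖ = 1) :
    dI f (swp u a {z | a < inner ℝ u z ∧ f z < f (rfx u a z)})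
      = 2 * ∫ p, GG u a f p ∂(volume.prod volume) := by
  have h1 := GG_int (a := a) hk hf hu
  have h2 : Integrable (fun p : E k × E k => GG u a f p.swap) (volume.prod volume) := h1.swap
  have h3 := h1.add h2
  unfold dI
  calc ∫ z, ∫ z', (Real.log ‖swp u a {z | a < inner ℝ u z ∧ f z < f (rfx u a z)} z
        - swp u a {z | a < inner ℝ u z ∧ f z < f (rfx u a z)} z'‖
        - Real.log ‖z - z'‖) * (f z * f z')
      = ∫ z, ∫ z', (GG u a f + fun p : E k × E k => GG u a f p.swap) (z, z') := by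
        simp only [dI_integrand hu, Pi.add_apply, Prod.swap_prod_mk]
    _ = ∫ p, (GG u a f + fun p : E k × E k => GG u a f p.swap) p ∂(volume.prod volume) :=
        (integral_prod _ h3).symm
    _ = 2 * ∫ p, GG u a f p ∂(volume.prod volume) := by
        rw [integral_add' h1 h2, integral_prod_swap (μ := (volume : Measure (E k)))
          (ν := (volume : Measure (E k)))]
        ring

lemma mp1 (hu : ‖u‖ = 1) : MeasurePreserving (Prod.map (rfx u a) (id : E k → E k))
    (volume.prod volume) (volume.prod volume) := (mp_rfx hu).prod (MeasurePreserving.id volume)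

lemma mp2 (hu : ‖u‖ = 1) : MeasurePreserving (Prod.map (id : E k → E k) (rfx u a))
    (volume.prod volume) (volume.prod volume) := (MeasurePreserving.id volume).prod (mp_rfx hu)

lemma mp3 (hu : ‖u‖ = 1) : MeasurePreserving (Prod.map (rfx u a) (rfx u a))
    (volume.prod volume) (volume.prod volume) := (mp_rfx hu).prod (mp_rfx hu)

lemma sum_four (hu : ‖u‖ = 1) (f : E k → ℝ) (p : E k × E k) :
    GG u a f p + GG u a f (Prod.map (rfx u a) id p) + GG u a f (Prod.map id (rfx u a) p)
      + GG u a f (Prod.map (rfx u a) (rfx u a) p)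
      = (SS u a f).indicator (fun p => Lg u a p.1 p.2 * (Df u a f p.1 * Df u a f p.2)) p := by
  obtain ⟨z, y⟩ := p
  simp only [Prod.map_apply, id]
  have m1 := rfx_mem_QQ (a := a) hu f z
  have m2 := rfx_mem_QQ (a := a) hu f y
  by_cases h1 : z ∈ QQ u a f
  · by_cases h2 : y ∈ QQ u a f
    · rw [GG_of_right f z y h2, GG_of_right f (rfx u a z) y h2,
        GG_of_right f z (rfx u a y) (m2.mpr h2),
        GG_of_right f (rfx u a z) (rfx u a y) (m2.mpr h2),
        Set.indicator_of_notMem (show (z, y) ∉ SS u a f from fun h3 => h3.2 h2)]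
      ring
    · have h2' : rfx u a y ∉ QQ u a f := fun h3 => h2 (m2.mp h3)
      have h1' := m1.mpr h1
      rw [GG_of_mem f z y h1 h2, GG_of_mem f (rfx u a z) y h1' h2,
        GG_of_mem f z (rfx u a y) h1 h2', GG_of_mem f (rfx u a z) (rfx u a y) h1' h2',
        Set.indicator_of_mem (show (z, y) ∈ SS u a f from ⟨h1, h2⟩)]
      unfold Lg Df
      simp only
      rw [rfx_rfx hu, norm_rfx_sub hu, ← norm_rfx_sub' hu z y]
      ring
  · have h1' : rfx u a z ∉ QQ u a f := fun h3 => h1 (m1.mp h3)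
    rw [GG_of_left f z y h1, GG_of_left f (rfx u a z) y h1',
      GG_of_left f z (rfx u a y) h1, GG_of_left f (rfx u a z) (rfx u a y) h1',
      Set.indicator_of_notMem (show (z, y) ∉ SS u a f from fun h3 => h1 h3.1)]
    ring

end SC_

open SC_ REFL_ in
theorem stmt_SC : Stmt_SC := by
  intro k f φ hk hf u a hu hmin
  have hfm := hf.meas
  have hG := GG_int (a := a) hk hf hu
  -- the test set
  have hQm : MeasurableSet {z : E k | a < inner ℝ u z ∧ f z < f (rfx u a z)} := by
    have e1 : MeasurableSet {z : E k | a < inner ℝ u z} :=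
      measurableSet_lt measurable_const (by fun_prop)
    exact e1.inter (measurableSet_lt hfm (hfm.comp measurable_rfx))
  have h0 := hmin _ hQm (fun z hz => hz.1)
  rw [dI_eq hk hf hu] at h0
  set J : E k × E k → ℝ :=
    (SS u a f).indicator (fun p => Lg u a p.1 p.2 * (Df u a f p.1 * Df u a f p.2)) with hJ
  have g1 := ((mp1 (a := a) hu).integrable_comp_of_integrable hG)
  have g2 := ((mp2 (a := a) hu).integrable_comp_of_integrable hG)
  have g3 := ((mp3 (a := a) hu).integrable_comp_of_integrable hG)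
  have hJe : J = GG u a f + (GG u a f ∘ Prod.map (rfx u a) id)
      + (GG u a f ∘ Prod.map id (rfx u a)) + (GG u a f ∘ Prod.map (rfx u a) (rfx u a)) := by
    funext p
    rw [hJ, ← sum_four hu f p]
    rfl
  have hJi : Integrable J (volume.prod volume) := by
    rw [hJe]
    exact ((hG.add g1).add g2).add g3
  have i1 : ∫ p, (GG u a f ∘ Prod.map (rfx u a) id) p ∂(volume.prod volume)
      = ∫ p, GG u a f p ∂(volume.prod volume) :=
    (mp1 (a := a) hu).integral_comp
      ((me (a := a) hu).prodCongr (MeasurableEquiv.refl (E k))).measurableEmbedding _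
  have i2 : ∫ p, (GG u a f ∘ Prod.map id (rfx u a)) p ∂(volume.prod volume)
      = ∫ p, GG u a f p ∂(volume.prod volume) :=
    (mp2 (a := a) hu).integral_comp
      ((MeasurableEquiv.refl (E k)).prodCongr (me (a := a) hu)).measurableEmbedding _
  have i3 : ∫ p, (GG u a f ∘ Prod.map (rfx u a) (rfx u a)) p ∂(volume.prod volume)
      = ∫ p, GG u a f p ∂(volume.prod volume) :=
    (mp3 (a := a) hu).integral_comp
      ((me (a := a) hu).prodCongr (me (a := a) hu)).measurableEmbedding _
  have hJint : 0 ≤ ∫ p, J p ∂(volume.prod volume) := by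
    rw [hJe, integral_add' ((hG.add g1).add g2) g3, integral_add' (hG.add g1) g2,
      integral_add' hG g1, i1, i2, i3]
    linarith
  have hJle : ∀ p, J p ≤ 0 := by
    intro p
    by_cases hp : p ∈ SS u a f
    · rw [hJ, Set.indicator_of_mem hp]
      exact sign_le hu f hp.1 (not_lt.mp hp.2)
    · rw [hJ, Set.indicator_of_notMem hp]
  have hJ0 : J =ᵐ[volume.prod volume] 0 := by
    have h1 : 0 ≤ᵐ[volume.prod volume] (fun p => - J p) :=
      Filter.Eventually.of_forall fun p => by
        have := hJle p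
        simp only [Pi.zero_apply]
        linarith
    have h2 : ∫ p, - J p ∂(volume.prod volume) = 0 := by
      have h3 : 0 ≤ ∫ p, - J p ∂(volume.prod volume) := integral_nonneg_of_ae h1
      rw [integral_neg] at h3 ⊢
      linarith
    have h4 := (integral_eq_zero_iff_of_nonneg_ae h1 hJi.neg).mp h2
    filter_upwards [h4] with p hp
    simp only [Pi.zero_apply] at hp ⊢
    linarith
  -- the product of the two sets is a null set
  set N1 : Set (E k) := QQ u a f with hN1
  set N2 : Set (E k) := {z | 0 < h u a z * Df u a f z} with hN2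
  have hN2m : MeasurableSet N2 :=
    measurableSet_lt measurable_const (continuous_h.measurable.mul (measurable_Df hfm))
  have hprod : (volume.prod volume) (N1 ×ˢ N2) = 0 := by
    refine measure_mono_null ?_ hJ0
    rintro ⟨z, y⟩ hzy
    have hz : z ∈ QQ u a f := (Set.mem_prod.mp hzy).1
    have hy : 0 < h u a y * Df u a f y := (Set.mem_prod.mp hzy).2
    have hz' : h u a z * Df u a f z < 0 := hz
    have hy' : y ∉ QQ u a f := fun h3 => lt_asymm (show h u a y * Df u a f y < 0 from h3) hy
    have e1 : J (z, y) = Lg u a z y * (Df u a f z * Df u a f y) :=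
      Set.indicator_of_mem (show (z, y) ∈ SS u a f from ⟨hz, hy'⟩) _
    rw [Set.mem_compl_iff, Set.mem_ofPred_eq, e1]
    exact sign_ne hu f hz' hy
  rw [Measure.prod_prod, mul_eq_zero] at hprod
  rcases hprod with h1 | h1
  · left
    have h2 : ∀ᵐ z, z ∉ N1 := measure_eq_zero_iff_ae_notMem.mp h1
    filter_upwards [h2] with z hz ha
    by_contra hcon
    push Not at hcon
    apply hz
    show h u a z * Df u a f z < 0
    unfold h Df
    exact mul_neg_of_pos_of_neg (by linarith) (by linarith)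
  · right
    have h2 : ∀ᵐ z, z ∉ N2 := measure_eq_zero_iff_ae_notMem.mp h1
    filter_upwards [h2] with z hz ha
    by_contra hcon
    push Not at hcon
    apply hz
    show 0 < h u a z * Df u a f z
    unfold h Df
    exact mul_pos (by linarith) (by linarith)

end Pool.NS
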