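import Pool.Agent.Work.MP_b29d7f_ns.Interface3

/-!
# Limits of averages along an ultrafilter are given by a bounded density
-/

set_option autoImplicit false

open Finset Filter Topology MeasureTheory Metric
open scoped CompactlySupported ENNReal NNReal

namespace Pool.NS

namespace LIMA_

variable {k : ℕ}

/-- properties of averages -/
structure Av (T : ℕ → (E k → ℝ) → ℝ) : Prop where
  add : ∀ l g g', T l (fun x => g x + g' x) = T l g + T l g'
  smul : ∀ l (c : ℝ) g, T l (fun x => c * g x) = c * T l g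
  mono : ∀ l g g', (∀ x, g x ≤ g' x) → T l g ≤ T l g'
  one : ∀ l, T l (fun _ => 1) = 1

variable {T : ℕ → (E k → ℝ) → ℝ}

lemma Av.const (hT : Av T) (l : ℕ) (c : ℝ) : T l (fun _ => c) = c := by
  have h := hT.smul l c (fun _ => 1)
  rw [hT.one, mul_one] at h
  simpa using h

lemma Av.exists_lim (hT : Av T) {g : E k → ℝ} {M : ℝ} (hg : ∀ x, |g x| ≤ M) :
    ∃ y, Tendsto (fun l => T l g) 𝒰 (𝓝 y) := by
  have hmem : ∀ l, T l g ∈ Set.Icc (-M) M := by
    intro l
    constructor
    · have h1 := hT.mono l (fun _ => -M) g (fun x => (abs_le.mp (hg x)).1)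
      rwa [hT.const] at h1
    · have h1 := hT.mono l g (fun _ => M) (fun x => (abs_le.mp (hg x)).2)
      rwa [hT.const] at h1
  obtain ⟨y, _, hy⟩ := (isCompact_Icc (a := -M) (b := M)).ultrafilter_le_nhds'
    ((hyperfilter ℕ).map fun l => T l g) (by
      rw [Ultrafilter.mem_map]
      exact Filter.univ_mem' hmem)
  exact ⟨y, hy⟩

/-- the limit functional -/
noncomputable def Li (T : ℕ → (E k → ℝ) → ℝ) (g : E k → ℝ) : ℝ := limUnder 𝒰 (fun l => T l g)

lemma Av.tendsto (hT : Av T) {g : E k → ℝ} (h1 : ∃ M, ∀ x, |g x| ≤ M) :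
    Tendsto (fun l => T l g) 𝒰 (𝓝 (Li T g)) := by
  obtain ⟨M, hM⟩ := h1
  exact tendsto_nhds_limUnder (hT.exists_lim hM)

lemma bdd_of_cs {g : E k → ℝ} (h1 : Continuous g) (h2 : HasCompactSupport g) :
    ∃ M, ∀ x, |g x| ≤ M := by
  obtain ⟨M, hM⟩ := h2.exists_bound_of_continuous h1
  exact ⟨M, fun x => by rw [← Real.norm_eq_abs]; exact hM x⟩

/-- the limit functional as a positive linear map -/
noncomputable def LL (hT : Av T) : C_c(E k, ℝ) →ₚ[ℝ] ℝ :=
  PositiveLinearMap.mk₀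
    { toFun := fun g => Li T g
      map_add' := by
        intro g g'
        have h1 : Tendsto (fun l => T l (⇑g)) 𝒰 (𝓝 (Li T (⇑g))) :=
          hT.tendsto (bdd_of_cs g.continuous g.hasCompactSupport)
        have h2 : Tendsto (fun l => T l (⇑g')) 𝒰 (𝓝 (Li T (⇑g'))) :=
          hT.tendsto (bdd_of_cs g'.continuous g'.hasCompactSupport)
        have h3 : Tendsto (fun l => T l (⇑(g + g'))) 𝒰 (𝓝 (Li T (⇑(g + g')))) :=
          hT.tendsto (bdd_of_cs (g + g').continuous (g + g').hasCompactSupport)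
        have h4 := h1.add h2
        have h5 : (fun l => T l (⇑(g + g'))) = fun l => T l g + T l g' := by
          funext l
          rw [← hT.add]
          rfl
        rw [h5] at h3
        exact tendsto_nhds_unique h3 h4
      map_smul' := by
        intro c g
        have h1 : Tendsto (fun l => T l (⇑g)) 𝒰 (𝓝 (Li T (⇑g))) :=
          hT.tendsto (bdd_of_cs g.continuous g.hasCompactSupport)
        have h3 : Tendsto (fun l => T l (⇑(c • g))) 𝒰 (𝓝 (Li T (⇑(c • g)))) :=
          hT.tendsto (bdd_of_cs (c • g).continuous (c • g).hasCompactSupport)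
        have h4 := h1.const_mul c
        have h5 : (fun l => T l (⇑(c • g))) = fun l => c * T l g := by
          funext l
          rw [← hT.smul]
          rfl
        rw [h5] at h3
        exact tendsto_nhds_unique h3 h4 }
    (by
      intro g hg
      have h1 := hT.tendsto (bdd_of_cs g.continuous g.hasCompactSupport)
      refine ge_of_tendsto h1 (Filter.Eventually.of_forall fun l => ?_)
      have h2 := hT.mono l (fun _ => 0) g (fun x => hg x)
      rwa [hT.const] at h2)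

lemma LL_apply (hT : Av T) (g : C_c(E k, ℝ)) : LL hT g = Li T g := rfl

/-- a bump function -/
noncomputable def bmp (x : E k) (r : ℝ) (z : E k) : ℝ := max 0 (min 1 (2 - ‖z - x‖ / r))

lemma bmp_nonneg (x : E k) (r : ℝ) (z : E k) : 0 ≤ bmp x r z := le_max_left _ _

lemma bmp_le (x : E k) (r : ℝ) (z : E k) : bmp x r z ≤ 1 :=
  max_le zero_le_one (min_le_left _ _)

lemma bmp_one (x : E k) {r : ℝ} (hr : 0 < r) {z : E k} (hz : ‖z - x‖ ≤ r) : bmp x r z = 1 := by
  have h1 : ‖z - x‖ / r ≤ 1 := (div_le_one hr).mpr hz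
  unfold bmp
  rw [min_eq_left (by linarith), max_eq_right zero_le_one]

lemma bmp_zero (x : E k) {r : ℝ} (hr : 0 < r) {z : E k} (hz : 2 * r ≤ ‖z - x‖) :
    bmp x r z = 0 := by
  have h1 : 2 ≤ ‖z - x‖ / r := by rw [le_div_iff₀ hr]; exact hz
  unfold bmp
  apply max_eq_left
  exact (min_le_right _ _).trans (by linarith)

lemma bmp_cont (x : E k) (r : ℝ) : Continuous (bmp x r) := by
  unfold bmp
  fun_prop

lemma bmp_cs (x : E k) {r : ℝ} (hr : 0 < r) : HasCompactSupport (bmp x r) := by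
  refine HasCompactSupport.intro (isCompact_closedBall x (2 * r)) fun z hz => ?_
  apply bmp_zero x hr
  rw [mem_closedBall, dist_eq_norm, not_le] at hz
  exact hz.le

/-- the measure of a ball -/
lemma ball_le (hT : Av T) (x : E k) {r q : ℝ} (hr : 0 < r)
    (h : ∀ ε : ℝ, 0 < ε → ∀ᶠ l in 𝒰, T l (bmp x r) ≤ q + ε) :
    RealRMK.rieszMeasure (LL hT) (closedBall x r) ≤ ENNReal.ofReal q := by
  set g : C_c(E k, ℝ) := ⟨⟨bmp x r, bmp_cont x r⟩, bmp_cs x hr⟩ with hg
  have hgx : ∀ z, g z = bmp x r z := fun z => rfl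
  have h1 : RealRMK.rieszMeasure (LL hT) (closedBall x r) ≤ ENNReal.ofReal (LL hT g) := by
    apply RealRMK.rieszMeasure_le_of_eq_one
    · intro z
      rw [hgx]
      exact bmp_nonneg x r z
    · exact isCompact_closedBall x r
    · intro z hz
      rw [hgx]
      apply bmp_one x hr
      rw [← dist_eq_norm]
      exact mem_closedBall.mp hz
  refine h1.trans (ENNReal.ofReal_le_ofReal ?_)
  rw [LL_apply]
  have h2 := hT.tendsto (bdd_of_cs g.continuous g.hasCompactSupport)
  apply le_of_forall_pos_le_add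
  intro ε hε
  exact le_of_tendsto h2 (h ε hε)

/-- the measure is bounded by a measure if this is true for small balls -/
lemma meas_le (hT : Av T) (ν : Measure (E k)) [IsLocallyFiniteMeasure ν] (s : Set (E k))
    (h : ∀ x ∈ s, ∀ᶠ r in 𝓝[>] (0 : ℝ),
      RealRMK.rieszMeasure (LL hT) (closedBall x r) ≤ ν (closedBall x r)) :
    RealRMK.rieszMeasure (LL hT) s ≤ ν s := by
  set ρ := RealRMK.rieszMeasure (LL hT) with hρ
  refine (Besicovitch.vitaliFamily ρ).measure_le_of_frequently_le ν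
    Measure.AbsolutelyContinuous.rfl s ?_
  intro x hx
  exact (Besicovitch.tendsto_filterAt ρ x).frequently (h x hx).frequently

theorem main (hT : Av T)
    (hb : ∃ C : ℝ, 0 ≤ C ∧ ∀ (x : E k) (r : ℝ), 0 < r → 2 * r ≤ 1 → ∀ ε : ℝ, 0 < ε →
      ∀ᶠ l in 𝒰, T l (bmp x r) ≤ C * (2 * r) ^ k + ε)
    (R₀ : ℝ) (hR0 : 0 ≤ R₀)
    (hR : ∀ g : E k → ℝ, (∀ z, 0 ≤ g z) → (∀ z, g z ≤ 1) → (∀ z, ‖z‖ ≤ R₀ → g z = 0) →
      ∀ ε : ℝ, 0 < ε → ∀ᶠ l in 𝒰, T l g ≤ ε) :
    ∃ f : E k → ℝ, Measurable f ∧ (∀ z, 0 ≤ f z) ∧ (∃ B, ∀ z, f z ≤ B) ∧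
      (∃ R₀, ∀ z, R₀ ≤ ‖z‖ → f z = 0) ∧ (∫ z, f z = 1) ∧
      ∀ g : E k → ℝ, Continuous g → HasCompactSupport g →
        Tendsto (fun l => T l g) 𝒰 (𝓝 (∫ z, g z * f z)) := by
  classical
  obtain ⟨C, hC0, hC⟩ := hb
  set ρ := RealRMK.rieszMeasure (LL hT) with hρ
  set w : ℝ≥0∞ := volume (ball (0 : E k) 1) with hw
  have hw0 : w ≠ 0 := (measure_ball_pos volume (0 : E k) one_pos).ne'
  have hwt : w ≠ ∞ := measure_ball_lt_top.ne
  set K : ℝ≥0 := (ENNReal.ofReal (C * 2 ^ k) / w).toNNReal with hK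
  have hKe : (K : ℝ≥0∞) = ENNReal.ofReal (C * 2 ^ k) / w :=
    ENNReal.coe_toNNReal (ENNReal.div_ne_top ENNReal.ofReal_ne_top hw0)
  -- the bound by the volume
  have hle : ρ ≤ K • (volume : Measure (E k)) := by
    rw [Measure.le_iff]
    intro s _
    refine meas_le hT _ s ?_
    intro x _
    have h1 : ∀ᶠ r in 𝓝[>] (0 : ℝ), 0 < r ∧ r < 1 / 2 :=
      Ioo_mem_nhdsGT (show (0 : ℝ) < 1 / 2 by norm_num)
    filter_upwards [h1] with r hr
    have h2 := ball_le hT x hr.1 (hC x r hr.1 (by linarith [hr.2]))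
    refine h2.trans (le_of_eq ?_)
    rw [Measure.smul_apply, Measure.addHaar_closedBall volume x hr.1.le, finrank_euclideanSpace,
      Fintype.card_fin, mul_pow, ← mul_assoc, ENNReal.ofReal_mul (by positivity),
      ENNReal.smul_def, smul_eq_mul, hKe, mul_comm (ENNReal.ofReal (r ^ k)), ← mul_assoc,
      ENNReal.div_mul_cancel hw0 hwt]
  -- the support
  have hsupp : ρ {z : E k | R₀ + 1 ≤ ‖z‖} = 0 := by
    have h0 := meas_le hT (0 : Measure (E k)) {z : E k | R₀ + 1 ≤ ‖z‖} ?_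
    · simpa using h0
    intro x hx
    have h1 : ∀ᶠ r in 𝓝[>] (0 : ℝ), 0 < r ∧ r < 1 / 2 :=
      Ioo_mem_nhdsGT (show (0 : ℝ) < 1 / 2 by norm_num)
    filter_upwards [h1] with r hr
    have h2 := ball_le hT x (q := 0) hr.1 (fun ε hε => by
      have h3 := hR (bmp x r) (bmp_nonneg x r) (bmp_le x r) (fun z hz => by
        apply bmp_zero x hr.1
        have h4 : ‖x‖ ≤ ‖z - x‖ + ‖z‖ := by
          calc ‖x‖ = ‖z - (z - x)‖ := by rw [sub_sub_cancel]
            _ ≤ ‖z‖ + ‖z - x‖ := norm_sub_le _ _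
            _ = ‖z - x‖ + ‖z‖ := add_comm _ _
        have h5 : R₀ + 1 ≤ ‖x‖ := hx
        linarith [hr.2]) ε hε
      filter_upwards [h3] with l hl
      rwa [zero_add])
    rw [ENNReal.ofReal_zero] at h2
    exact le_of_le_of_eq h2 (by simp)
  -- the density
  have hac : ρ ≪ (volume : Measure (E k)) := Measure.absolutelyContinuous_of_le_smul
    (c := (K : ℝ≥0∞)) hle
  set F : E k → ℝ≥0∞ := ρ.rnDeriv volume with hF
  have hFm : Measurable F := Measure.measurable_rnDeriv _ _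
  have hFρ : (volume : Measure (E k)).withDensity F = ρ := Measure.withDensity_rnDeriv_eq ρ _ hac
  have hFK : F ≤ᵐ[volume] fun _ => (K : ℝ≥0∞) := by
    apply ae_le_of_forall_setLIntegral_le_of_sigmaFinite hFm
    intro s hs _
    rw [← withDensity_apply _ hs, hFρ, setLIntegral_const]
    exact hle s
  have hF0 : ∀ᵐ z ∂(volume : Measure (E k)), R₀ + 1 ≤ ‖z‖ → F z = 0 := by
    have hms : MeasurableSet {z : E k | R₀ + 1 ≤ ‖z‖} := by measurability
    have h1 : ∫⁻ z in {z : E k | R₀ + 1 ≤ ‖z‖}, F z = 0 := by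
      rw [← withDensity_apply _ hms, hFρ, hsupp]
    rw [lintegral_eq_zero_iff hFm] at h1
    exact (ae_restrict_iff' hms).mp h1
  set f : E k → ℝ := fun z => if ‖z‖ < R₀ + 1 then (min (F z) K).toReal else 0 with hf
  have hfm : Measurable f := by
    apply Measurable.ite
    · exact measurableSet_lt measurable_norm measurable_const
    · exact (hFm.min measurable_const).ennreal_toReal
    · exact measurable_const
  have hf0 : ∀ z, 0 ≤ f z := by
    intro z
    rw [hf]
    simp only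
    split_ifs
    · exact ENNReal.toReal_nonneg
    · exact le_rfl
  have hfK : ∀ z, f z ≤ K := by
    intro z
    rw [hf]
    simp only
    split_ifs
    · have h1 : (min (F z) K).toReal ≤ ((K : ℝ≥0∞)).toReal :=
        ENNReal.toReal_mono ENNReal.coe_ne_top (min_le_right _ _)
      simpa using h1
    · exact NNReal.coe_nonneg K
  have hfs : ∀ z, R₀ + 1 ≤ ‖z‖ → f z = 0 := by
    intro z hz
    rw [hf]
    simp only
    rw [if_neg (not_lt.mpr hz)]
  have hfF : ∀ᵐ z, f z = (F z).toReal := by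
    filter_upwards [hFK, hF0] with z h1 h2
    rw [hf]
    simp only
    by_cases hz : ‖z‖ < R₀ + 1
    · rw [if_pos hz, min_eq_left h1]
    · rw [if_neg hz, h2 (not_lt.mp hz), ENNReal.toReal_zero]
  have hweak : ∀ g : E k → ℝ, Continuous g → HasCompactSupport g →
      Tendsto (fun l => T l g) 𝒰 (𝓝 (∫ z, g z * f z)) := by
    intro g hg1 hg2
    set G : C_c(E k, ℝ) := ⟨⟨g, hg1⟩, hg2⟩ with hG
    have h1 := RealRMK.integral_rieszMeasure (LL hT) G
    have h2 := hT.tendsto (bdd_of_cs hg1 hg2)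
    have h3 : ∫ z, g z * f z = Li T g := by
      have h4 : Li T g = ∫ z, g z ∂ρ := h1.symm
      rw [h4, ← hFρ, integral_withDensity_eq_integral_toReal_smul hFm]
      · apply integral_congr_ae
        filter_upwards [hfF] with z hz
        rw [hz, smul_eq_mul, mul_comm]
      · filter_upwards [hFK] with z hz
        exact hz.trans_lt ENNReal.coe_lt_top
    rw [h3]
    exact h2
  refine ⟨f, hfm, hf0, ⟨K, hfK⟩, ⟨R₀ + 1, hfs⟩, ?_, hweak⟩
  -- the mass
  have hr : 0 < R₀ + 1 := by linarith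
  have h1 := hweak (bmp 0 (R₀ + 1)) (bmp_cont 0 _) (bmp_cs 0 hr)
  have h2 : ∫ z, bmp 0 (R₀ + 1) z * f z = ∫ z, f z := by
    apply integral_congr_ae
    filter_upwards with z
    by_cases hz : R₀ + 1 ≤ ‖z‖
    · rw [hfs z hz, mul_zero]
    · rw [bmp_one 0 hr (by rw [sub_zero]; exact (not_le.mp hz).le), one_mul]
  rw [h2] at h1
  apply le_antisymm
  · refine le_of_tendsto h1 (Filter.Eventually.of_forall fun l => ?_)
    have h3 := hT.mono l (bmp 0 (R₀ + 1)) (fun _ => 1) (bmp_le 0 _)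
    rwa [hT.const] at h3
  · apply le_of_forall_pos_le_add
    intro ε hε
    have h3 := hR (fun z => 1 - bmp 0 (R₀ + 1) z)
      (fun z => by have := bmp_le 0 (R₀ + 1) z; linarith)
      (fun z => by have := bmp_nonneg 0 (R₀ + 1) z; linarith)
      (fun z hz => by rw [bmp_one 0 hr (by rw [sub_zero]; linarith)]; ring) ε hε
    have h4 : ∀ᶠ l in 𝒰, 1 - ε ≤ T l (bmp 0 (R₀ + 1)) := by
      filter_upwards [h3] with l hl
      have h5 := hT.add l (bmp 0 (R₀ + 1)) (fun z => 1 - bmp 0 (R₀ + 1) z)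
      have h6 : (fun z => bmp 0 (R₀ + 1) z + (1 - bmp 0 (R₀ + 1) z)) = fun _ : E k => (1 : ℝ) := by
        funext z
        ring
      rw [h6, hT.one] at h5
      linarith
    have h5 := ge_of_tendsto h1 h4
    linarith

end LIMA_

end Pool.NS
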